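import Pool.Agent.Y602.CIS
import Pool.Agent.H609R2.NPClosure

/-!
# CIS RECOGNITION is coNP-complete

A graph is CIS when every maximal clique meets every maximal stable set.  The decision problem CIS
RECOGNITION has as input a finite simple graph, given by an adjacency matrix
`M : List (List Bool)`; `matGraph M` is the graph.

Hardness: a 3-CNF formula is turned in polynomial time into a graph which is CIS if and only if the
formula is unsatisfiable.  Hence CIS RECOGNITION is solvable in polynomial time if and only if
`P = NP`.

The reduction and the verifier are in the file `Pool.Agent.Y602.CIS` of the starting library.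
-/

set_option autoImplicit false

namespace Pool.Agent.Results.MP_bb030f_lc.CISCoNPComplete

open Pool.Agent.NPC Pool.Agent.H622R2 Pool.Agent.H609R2 Pool.Agent.H495R3 Pool.Agent.Y602

/-- `P` is closed under complements. -/
theorem inP_compl {L : Set (List Bool)} (h : InP L) : InP Lᶜ := by
  obtain ⟨V, hV, hV'⟩ := h
  have h1 := poly_of_polyTime hV
  have hg : NPC.Poly (fun x : List Bool => !decide (V x = [true])) :=
    NPC.Poly.not (NPC.Poly.dec_eq h1 (NPC.Poly.const _))
  refine ⟨_, polyTime_of_poly hg, fun x => ?_⟩
  simp [hV' x]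

/-- **CIS RECOGNITION is coNP-complete**; it is in `NP` if and only if `NP = coNP`, and it is in
`P` if and only if `P = NP`. -/
theorem result : InCoNPP (fun M : List (List Bool) => IsCIS (matGraph M)) ∧
    CoNPHardP (fun M : List (List Bool) => IsCIS (matGraph M)) ∧
    (InNPP (fun M : List (List Bool) => IsCIS (matGraph M)) ↔
      ∀ L : Set (List Bool), InNP L ↔ InCoNP L) ∧
    (InPP (fun M : List (List Bool) => IsCIS (matGraph M)) ↔
      ∀ L : Set (List Bool), InP L ↔ InNP L) := by
  have h : CoNPHardP (fun M : List (List Bool) => IsCIS (matGraph M)) :=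
    hardI_not_cis.toCoNPHardP
  refine ⟨inCoNP_cis, h, ⟨fun h' => ?_, fun h' => (h' _).2 inCoNP_cis⟩,
    ⟨fun h' L => ⟨fun hL => hL.inNP, fun hL => ?_⟩, fun h' => ?_⟩⟩
  · have h1 : ∀ L : Set (List Bool), InCoNP L → InNP L := fun L hL =>
      CoNPHard.collapse609 h h' L hL
    intro L
    refine ⟨fun hL => ?_, h1 L⟩
    have h2 : InCoNP Lᶜ := by
      unfold InCoNP
      rwa [compl_compl]
    exact h1 _ h2
  · have h2 : InCoNP Lᶜ := by
      unfold InCoNP
      rwa [compl_compl]
    have h3 : InP Lᶜ := InP.of_reduces (h _ h2) h'
    have h4 := inP_compl h3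
    rwa [compl_compl] at h4
  · have h1 : InNP (lang (fun M : List (List Bool) => IsCIS (matGraph M)))ᶜ := inCoNP_cis
    have h2 : InP (lang (fun M : List (List Bool) => IsCIS (matGraph M)))ᶜ := (h' _).2 h1
    have h3 := inP_compl h2
    rwa [compl_compl] at h3

end Pool.Agent.Results.MP_bb030f_lc.CISCoNPComplete
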